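import Pool.Agent.V5helper88.L.L4

/-!
The classes on the product of a good abelian variety with a structure.
-/

set_option autoImplicit false

namespace Pool.Agent.V5helper88.KK

open Matrix Module Function Pool.Agent.Y102 Pool.Agent.W516.DR Pool.Agent.H204R3.GP
  Pool.Agent.W516.KC Pool.Agent.H204R3.SP Pool.Agent.N192.GP Pool.Agent.V5helper88.HR
  Pool.Agent.V5helper88.ID

noncomputable section

variable {g : ℕ} {B : AbVar g}

/-- The classes. -/
theorem Good.classes (hG : Good B) {k : ℕ} {φ : AF B k}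
    (h : IsDeRhamBettiForm QBar B.dR tau k φ.toMultilinearMap) : φ ∈ QS B k :=
  hG.even k φ (gA_of_wa fun X hX v => B.kills_of_mem h hX v)

variable {J : Type} [Fintype J] [DecidableEq J] {d : J → ℕ}
  {V : ∀ j, DRS (d j)} {κ κ' : Type} [Fintype κ] [DecidableEq κ] [Fintype κ'] [DecidableEq κ']
  {w : ℤ}

/-- **Odd degree.** -/
theorem Good.odd_zero (hG : Good B)
    (hV : ∀ j, SepU (sA B) ⟨d j, V j⟩) {φ : Mx B d κ κ'}
    (h : IsMix B.dR (perTV V) w φ.toMultilinearMap) (ho : Odd (Fintype.card κ)) : φ = 0 := by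
  refine AlternatingMap.ext fun u => MultilinearMap.ext fun v => ?_
  have h1 : fv φ v = 0 := hG.odd κ ho _ fun X hX u => kill1 hG.perf hV h hX u v
  have h2 := congrArg (fun ψ : B.H1 [⋀^κ]→ₗ[ℚ] ℚ => ψ u) h1
  exact h2

/-- **Even degree.** -/
theorem Good.even_split (hG : Good B)
    (hV : ∀ j, SepU (sA B) ⟨d j, V j⟩) {k : ℕ} {φ : Mx B d (Fin k × Fin 2) κ'}
    (h : IsMix B.dR (perTV V) w φ.toMultilinearMap) :
    ∃ (N : ℕ) (ψ : Fin N → AF B k)
      (χ : Fin N → MultilinearMap ℚ (fun _ : κ' => ∀ j, Fin (d j) → ℚ) ℚ),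
      (∀ l, ψ l ∈ QS B k ∧ IsTw (perTV V) (w - k) (χ l)) ∧
      ∀ u v, φ u v = ∑ l, ψ l u * χ l v := by
  have hc : (Fintype.card (Fin k × Fin 2) : ℤ) = 2 * (k : ℤ) := by
    rw [Fintype.card_prod, Fintype.card_fin, Fintype.card_fin]
    push_cast
    ring
  obtain ⟨N, ψ, χ, h1, h2⟩ := decomp hG.perf hV h hc
  refine ⟨N, ψ, χ, fun l => ⟨?_, (h1 l).2⟩, h2⟩
  obtain ⟨a, ha⟩ := (h1 l).1
  refine hG.classes ⟨a, fun v => ?_⟩
  have h4 := ha v
  rw [zpow_natCast] at h4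
  exact h4

/-- Varieties of type four are good. -/
theorem T4.dbl {A : AbVar g} {P : Module.End ℚ A.H1} (h : T4 A P) : Dbl A P :=
  ⟨h.mem, fun Q hQ _ => h.gen Q hQ, h.four, P, h.mem.1, 0, Submodule.zero_mem _,
    fun _ hQ => h.comm h.mem.1 hQ, fun Q _ => by rw [zero_mul, mul_zero], by rw [add_zero]⟩

end

end Pool.Agent.V5helper88.KK
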