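import Pool.Agent.V5helper88.K.K9
import Pool.Agent.V5helper88.ID.I11

/-!
The vanishing theorem for the universal Lie algebra, and in odd degree.
-/

set_option autoImplicit false

namespace Pool.Agent.V5helper88.KK

open Matrix Module Function Pool.Agent.Y102 Pool.Agent.W516.DR Pool.Agent.H204R3.GP
  Pool.Agent.W516.KC Pool.Agent.H204R3.SP Pool.Agent.N208.BT Pool.Agent.V5helper88.HR Polynomial
  Pool.Agent.N192.GP Pool.Agent.V5helper88.ID

noncomputable section

section odd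

variable {ι : Type} [Fintype ι] [DecidableEq ι] {Ω : Matrix ι ι ℂ}
  {H : Submodule ℂ (Matrix ι ι ℂ)} {n : ℕ}

theorem con_kil' (hS : SysW Ω H) {Q : Matrix ι ι ℂ} (hQ : Cm H (Q * Ω))
    {φ : (ι → ℂ) [⋀^Fin (n + 2)]→ₗ[ℂ] ℂ} (hφ : Kil H φ) : Kil H (con Q φ) := by
  intro X hX w
  simp only [con_apply]
  have h1 : ∀ i j, ∑ p : Fin n, Q i j *
      φ (vecCons (Pi.single i 1) (vecCons (Pi.single j 1) (update w p (X *ᵥ w p))))
      = -(Q i j * (φ (vecCons (X *ᵥ Pi.single i 1) (vecCons (Pi.single j 1) w))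
        + φ (vecCons (Pi.single i 1) (vecCons (X *ᵥ Pi.single j 1) w)))) := by
    intro i j
    have h2 := hφ X hX (vecCons (Pi.single i 1) (vecCons (Pi.single j 1) w))
    rw [Fin.sum_univ_succ, Fin.sum_univ_succ] at h2
    have e0 : update (vecCons (Pi.single i 1) (vecCons (Pi.single j 1) w) : Fin (n + 2) → ι → ℂ)
        0 (X *ᵥ (vecCons (Pi.single i 1) (vecCons (Pi.single j 1) w) : Fin (n + 2) → ι → ℂ) 0)
        = vecCons (X *ᵥ Pi.single i 1) (vecCons (Pi.single j 1) w) := by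
      funext q
      refine Fin.cases ?_ (fun q => ?_) q
      · rw [update_self]; rfl
      · rw [update_of_ne (Fin.succ_ne_zero _)]; rfl
    have e1 : update (vecCons (Pi.single i 1) (vecCons (Pi.single j 1) w) : Fin (n + 2) → ι → ℂ)
        (Fin.succ 0) (X *ᵥ (vecCons (Pi.single i 1) (vecCons (Pi.single j 1) w) :
          Fin (n + 2) → ι → ℂ) (Fin.succ 0))
        = vecCons (Pi.single i 1) (vecCons (X *ᵥ Pi.single j 1) w) := by
      funext q
      refine Fin.cases ?_ (fun q => Fin.cases ?_ (fun q => ?_) q) q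
      · rw [update_of_ne (Fin.succ_ne_zero _).symm]; rfl
      · rw [update_self]; rfl
      · rw [update_of_ne (fun h => Fin.succ_ne_zero _ (Fin.succ_inj.mp h))]; rfl
    rw [e0, e1] at h2
    have e2 : ∀ p : Fin n, update (vecCons (Pi.single i 1) (vecCons (Pi.single j 1) w) :
        Fin (n + 2) → ι → ℂ) p.succ.succ (X *ᵥ (vecCons (Pi.single i 1)
          (vecCons (Pi.single j 1) w) : Fin (n + 2) → ι → ℂ) p.succ.succ)
        = vecCons (Pi.single i 1) (vecCons (Pi.single j 1) (update w p (X *ᵥ w p))) :=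
      fun p => cons_update _ _ _ _ _
    simp only [e2] at h2
    rw [← Finset.mul_sum]
    linear_combination Q i j * h2
  have h3 : ∀ p : Fin n, ∑ i, ∑ j, Q i j *
      φ (vecCons (Pi.single i 1) (vecCons (Pi.single j 1) (update w p (X *ᵥ w p))))
      = ∑ t : ι × ι, Q t.1 t.2 *
      φ (vecCons (Pi.single t.1 1) (vecCons (Pi.single t.2 1) (update w p (X *ᵥ w p)))) :=
    fun p => by rw [Fintype.sum_prod_type]
  simp only [h3]
  rw [Finset.sum_comm, Finset.sum_congr rfl fun t _ => h1 t.1 t.2, Fintype.sum_prod_type]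
  simp only [Finset.sum_neg_distrib]
  rw [neg_eq_zero]
  obtain ⟨m, hm⟩ := bil2' φ w
  simp only [← hm]
  have e1 : ∀ i j, m (X *ᵥ Pi.single i 1) (Pi.single j 1)
      = ∑ l, X l i * m (Pi.single l 1) (Pi.single j 1) := by
    intro i j
    rw [mulVec_basis, LinearMap.map_sum₂]
    refine Finset.sum_congr rfl fun l _ => ?_
    rw [LinearMap.map_smul₂, smul_eq_mul]
  have e2 : ∀ i j, m (Pi.single i 1) (X *ᵥ Pi.single j 1)
      = ∑ l, X l j * m (Pi.single i 1) (Pi.single l 1) := by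
    intro i j
    rw [mulVec_basis, map_sum]
    refine Finset.sum_congr rfl fun l _ => ?_
    rw [map_smul, smul_eq_mul]
  simp only [e1, e2, mul_add, Finset.sum_add_distrib]
  have h4 : ∑ i, ∑ j, Q i j * ∑ l, X l i * m (Pi.single l 1) (Pi.single j 1)
      = ∑ l, ∑ j, (X * Q) l j * m (Pi.single l 1) (Pi.single j 1) := by
    simp only [Finset.mul_sum, mul_apply, Finset.sum_mul]
    rw [Finset.sum_congr rfl fun i _ => Finset.sum_comm, Finset.sum_comm]
    refine Finset.sum_congr rfl fun l _ => ?_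
    rw [Finset.sum_comm]
    refine Finset.sum_congr rfl fun j _ => Finset.sum_congr rfl fun i _ => ?_
    ring
  have h5 : ∑ i, ∑ j, Q i j * ∑ l, X l j * m (Pi.single i 1) (Pi.single l 1)
      = ∑ i, ∑ l, (Q * Xᵀ) i l * m (Pi.single i 1) (Pi.single l 1) := by
    refine Finset.sum_congr rfl fun i _ => ?_
    simp only [Finset.mul_sum, mul_apply, Finset.sum_mul, transpose_apply]
    rw [Finset.sum_comm]
    refine Finset.sum_congr rfl fun j _ => Finset.sum_congr rfl fun l _ => ?_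
    ring
  rw [h4, h5, ← Finset.sum_add_distrib]
  refine Finset.sum_eq_zero fun i _ => ?_
  rw [← Finset.sum_add_distrib]
  refine Finset.sum_eq_zero fun j _ => ?_
  rw [← add_mul, ← Matrix.add_apply, bivector' hS hQ hX, Matrix.zero_apply, zero_mul]

/-- **Odd degree.** -/
theorem odd_all (hS : SysW Ω H) (hvan : ∀ (m : ℕ) (φ : (ι → ℂ) [⋀^Fin (m + 1)]→ₗ[ℂ] ℂ),
    Prim Ω H φ → φ = 0) :
    ∀ (k : ℕ) (φ : (ι → ℂ) [⋀^Fin (2 * k + 1)]→ₗ[ℂ] ℂ), Kil H φ → φ = 0 := by
  intro k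
  induction k with
  | zero =>
    intro φ hφ
    refine hvan 0 φ ⟨hφ, fun Q _ s s' hs _ => absurd ?_ hs⟩
    have h1 := s.2
    have h2 := s'.2
    exact Fin.ext (by omega)
  | succ k ih =>
    intro φ hφ
    exact hvan (2 * k + 2) φ (prim_of_con (n := 2 * k + 1) hφ fun Q hQ =>
      ih _ (con_kil' (n := 2 * k + 1) hS hQ hφ))

/-- Odd degree, for an arbitrary index set. -/
theorem odd_all' (hS : SysW Ω H) (hvan : ∀ (m : ℕ) (φ : (ι → ℂ) [⋀^Fin (m + 1)]→ₗ[ℂ] ℂ),
    Prim Ω H φ → φ = 0) {κ : Type}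
    [Fintype κ] [DecidableEq κ] (ho : Odd (Fintype.card κ)) {φ : (ι → ℂ) [⋀^κ]→ₗ[ℂ] ℂ}
    (hφ : Kil H φ) : φ = 0 := by
  obtain ⟨k, hk⟩ := ho
  let e : Fin (2 * k + 1) ≃ κ := (finCongr hk.symm).trans (Fintype.equivFin κ).symm
  have h1 : φ.domDomCongr e.symm = 0 := by
    refine odd_all hS hvan k _ fun X hX v => ?_
    have h2 := hφ X hX (v ∘ e.symm)
    rw [← h2]
    refine Fintype.sum_equiv e _ _ fun s => ?_
    rw [AlternatingMap.domDomCongr_apply]
    congr 1
    funext q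
    have e1 : (v ∘ e.symm) (e s) = v s := by rw [Function.comp_apply, Equiv.symm_apply_apply]
    rw [e1]
    change (update v s (X *ᵥ v s)) (e.symm q) = _
    by_cases h : q = e s
    · subst h
      rw [Equiv.symm_apply_apply, update_self, update_self]
    · rw [update_of_ne h, update_of_ne, Function.comp_apply]
      intro h'
      exact h (by rw [← h', Equiv.apply_symm_apply])
  refine AlternatingMap.ext fun v => ?_
  have h2 := congrArg (fun ψ : (ι → ℂ) [⋀^Fin (2 * k + 1)]→ₗ[ℂ] ℂ => ψ (v ∘ e)) h1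
  simp only [AlternatingMap.domDomCongr_apply, AlternatingMap.zero_apply] at h2
  rw [AlternatingMap.zero_apply, ← h2]
  congr 1
  funext q
  simp

end odd

variable {g : ℕ} {A : AbVar g} {b : Basis (Fin (2 * g)) ℚ A.H1} {k : ℕ}
  {𝔥 : Submodule ℚ (Module.End ℚ A.H1)}

/-- The system attached to a full Lie algebra. -/
theorem sysw_full (b : Basis (Fin (2 * g)) ℚ A.H1) (h : A.Full 𝔥) :
    SysW (cc (Om b)) (HF b 𝔥) := by
  have h0 := sysw b
  refine ⟨h0.alt, h0.nd, HF_br h, ?_, ?_⟩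
  · intro X hX
    refine HF_ind (p := fun X => Xᵀ * cc (Om b) = -(cc (Om b) * X)) ?_ ?_ ?_ ?_ hX
    · intro X hX
      rw [← cc_tr, ← cc_mul, ← cc_mul, mt_skew (A.NA_skew (h.le hX)), cc_neg]
    · rw [transpose_zero, zero_mul, mul_zero, neg_zero]
    · intro x y hx hy
      rw [transpose_add, add_mul, mul_add, hx, hy, neg_add]
    · intro z x hx
      rw [transpose_smul, smul_mul_assoc, hx, mul_smul_comm, smul_neg]
  · intro Y hY
    obtain ⟨P, hP, h1, h2⟩ := h0.proj Y (stable_full h A.LA_le_NA hY)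
    exact ⟨P, (cm_full h).2 hP, h1, h2⟩

/-- The spectral data for a full Lie algebra. -/
theorem spec_full (h : A.Full 𝔥) {P : Matrix (Fin (2 * g)) (Fin (2 * g)) ℂ} {L : Finset ℂ}
    (hP : Spec (cc (Om b)) (HH b) P L) : Spec (cc (Om b)) (HF b 𝔥) P L :=
  ⟨(cm_full h).2 hP.cm, hP.sy, hP.kill, fun Q hQ hc => hP.scal Q ((cm_full h).1 hQ) hc, hP.ne⟩

theorem link_full (h : A.Full 𝔥) {P : Matrix (Fin (2 * g)) (Fin (2 * g)) ℂ} {L : Finset ℂ}
    {z w : ℂ} (hl : Link (HF b 𝔥) P L z w) : Link (HH b) P L z w := by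
  obtain ⟨T, hT, hne⟩ := hl
  exact ⟨T, (cm_full h).1 hT, hne⟩

/-- Forms in `2 k` variables which are annihilated by the universal Lie algebra are
de Rham-Betti classes. -/
theorem wa_of_gA {φ : AF A k}
    (h : ∀ X ∈ gA A, ∀ v, ∑ s, φ (update v s (X (v s))) = 0) : φ ∈ WA A k := by
  have h1 : IsTw A.basis (k : ℤ) φ.toMultilinearMap := by
    refine tw_of_acts A.basis fun D lam v => ?_
    have h2 := h (ID.nU A (gU D lam)) ⟨gU D lam, gU_mem D lam, rfl⟩ v
    have h3 : ∀ s, φ (update v s (NN A.basis D lam (v s))) =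
        φ (update v s (ID.nU A (gU D lam) (v s))) + (tt D lam / 2) * φ v := by
      intro s
      rw [NN_eq, φ.map_update_add, φ.map_update_smul, update_eq_self, smul_eq_mul]
    have h4 : ∑ s, φ (update v s (NN A.basis D lam (v s))) =
        ((k : ℚ) * tt D lam) * φ v := by
      rw [Finset.sum_congr rfl fun s _ => h3 s, Finset.sum_add_distrib, h2, zero_add,
        Finset.sum_const, Finset.card_univ, Fintype.card_prod, Fintype.card_fin,
        Fintype.card_fin, nsmul_eq_mul]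
      push_cast
      ring
    have h5 : (((k : ℤ) : ℚ)) = (k : ℚ) := by push_cast; rfl
    rw [h5]
    exact h4
  rw [A.coe_basis] at h1
  obtain ⟨a, ha⟩ := h1
  have h3 : IsDeRhamBettiForm QBar A.dR tau k φ.toMultilinearMap := by
    refine ⟨a, fun v => ?_⟩
    have h4 := ha v
    rw [zpow_natCast] at h4
    exact h4
  exact fun X hX v => A.kills_of_mem h3 hX v

/-- The elements of the universal Lie algebra kill the classes. -/
theorem gA_le_LA : gA A ≤ A.LA := by
  intro X hX m φ hφ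
  obtain ⟨ℓ, hℓ, rfl⟩ := hX
  have hφ' : IsTw A.basis (m : ℤ) φ := by
    obtain ⟨a, ha⟩ := hφ
    refine ⟨a, fun v => ?_⟩
    rw [zpow_natCast, A.coe_basis]
    exact ha v
  have e2 : ID.nU A ℓ ∈ ggU (sA A) := ⟨ℓ, hℓ, rfl⟩
  rw [← pair_gg (sA A) (sA A)] at e2
  obtain ⟨ℓ', hℓ', h1⟩ := e2
  rw [← h1]
  refine pr_kills (fun b => (σp (sA A) (sA A) b).2.basis) (t := false) (w := m) ?_ ?_ hℓ'
  · rw [Fintype.card_prod, Fintype.card_fin, Fintype.card_fin]
    push_cast
    ring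
  · exact (congrArg (fun b : Basis (Fin (2 * g)) ℂ ((Fin (2 * g) → ℚ) →ₗ[ℚ] ℂ) =>
      IsTw (κ := Fin m × Fin 2) b (m : ℤ) φ) (sA_basis A)).mpr
      ((IsTw_reindex A.basis (eqv g)).2 hφ')

theorem gA_of_wa {φ : AF A k} (h : φ ∈ WA A k) :
    ∀ X ∈ gA A, ∀ v, ∑ s, φ (update v s (X (v s))) = 0 := fun X hX v => h X (gA_le_LA hX) v

end

end Pool.Agent.V5helper88.KK
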