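import Pool.Agent.V5helper88.L.L1

/-!
Abelian varieties on which all classes are products of divisor classes, and their subvarieties.
-/

set_option autoImplicit false

namespace Pool.Agent.V5helper88.KK

open Matrix Module Function Pool.Agent.Y102 Pool.Agent.W516.DR Pool.Agent.H204R3.GP
  Pool.Agent.W516.KC Pool.Agent.H204R3.SP Pool.Agent.N208.BT Pool.Agent.V5helper88.HR Polynomial
  Pool.Agent.N192.GP Pool.Agent.V5helper88.ID

noncomputable section

variable {g : ℕ} {A : AbVar g} {k : ℕ}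

/-- The form is annihilated by the Lie algebra. -/
def KilA (A : AbVar g) {κ : Type} [DecidableEq κ] [Fintype κ] (φ : A.H1 [⋀^κ]→ₗ[ℚ] ℚ) : Prop :=
  ∀ X ∈ gA A, ∀ v : κ → A.H1, ∑ s, φ (update v s (X (v s))) = 0

/-- All invariant forms are products of divisor classes; the Lie algebra is perfect. -/
structure Good (A : AbVar g) : Prop where
  even : ∀ (k : ℕ) (φ : AF A k), KilA A φ → φ ∈ QS A k
  odd : ∀ (κ : Type) [Fintype κ] [DecidableEq κ], Odd (Fintype.card κ) →
    ∀ φ : A.H1 [⋀^κ]→ₗ[ℚ] ℚ, KilA A φ → φ = 0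
  perf : gA A ≤ brk (gA A) (gA A)

/-- `P` is symmetric, generates its own commutant, and is quadratic over the centre, and all
eigenspaces are of dimension four. -/
structure Dbl (A : AbVar g) (P : Module.End ℚ A.H1) : Prop where
  mem : P ∈ ES A
  gen : ∀ Q ∈ A.EA, Q * P = P * Q → ∃ f : ℚ[X], Q = aeval P f
  four : ∀ z : ℂ, (P.charpoly.map (algebraMap ℚ ℂ)).IsRoot z →
    (P.charpoly.map (algebraMap ℚ ℂ)).rootMultiplicity z = 4
  quad : ∃ a ∈ A.EA, ∃ e ∈ A.EA, (∀ Q ∈ A.EA, a * Q = Q * a) ∧ (∀ Q ∈ A.EA, e * Q = Q * e) ∧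
    P * P = a * P + e

theorem Dbl.van {P : Module.End ℚ A.H1} (h : Dbl A P) (m : ℕ)
    (φ : (Fin (2 * g) → ℂ) [⋀^Fin (m + 1)]→ₗ[ℂ] ℂ)
    (hφ : Prim (cc (Om (bs A))) (HF (bs A) (gA A)) φ) : φ = 0 := by
  rcases isEmpty_or_nonempty (Fin (2 * g)) with hem | hne
  · ext v
    rw [AlternatingMap.zero_apply]
    exact φ.map_coord_zero 0 (Subsingleton.elim _ _)
  · have hS := spec_of (b := bs A) h.mem h.gen
    have hF := gA_full A
    obtain ⟨a, haE, e, heE, ha, he, hq⟩ := h.quad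
    refine vanish_spec (sysw_full (bs A) hF) (spec_full hF hS) (fun z hz => ?_)
      (fun z hz w hw u hu h1 h2 => two_of_quad hS h.mem.1 ha he haE heE hq z hz w hw u hu
        (link_full hF h1) (link_full hF h2)) hφ
    rw [dim_Yz h.mem]
    refine h.four z ?_
    obtain ⟨r, hr⟩ := LinearMap.minpoly_dvd_charpoly P
    rw [hr, Polynomial.map_mul]
    exact root_mul_right_of_isRoot _ (mem_rts.1 hz)

theorem perf_of_central (h : ∀ Z ∈ A.EA, (∀ Q ∈ A.EA, Z * Q = Q * Z) →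
    ∀ u v, A.om (Z u) v = A.om u (Z v)) : gA A ≤ brk (gA A) (gA A) := by
  intro X hX
  obtain ⟨Z, hZ, d, hd, rfl, hc⟩ := (gA_full A).dec hX
  have h1 : Z ∈ A.EA := by
    have h2 := (gA_full A).comm Z fun Y hY => (hc Y hY).symm
    exact fun X hX => h2 X (A.LA_le_NA hX)
  have h2 : Z = 0 := by
    refine LinearMap.ext fun u => A.om_nondeg fun v => ?_
    have h3 := A.NA_skew ((gA_full A).le hZ) u v
    rw [← h Z h1 fun Q hQ => A.NA_comm ((gA_full A).le hZ) hQ] at h3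
    linarith
  rw [h2, zero_add]
  exact hd

theorem Dbl.good {P : Module.End ℚ A.H1} (h : Dbl A P) : Good A := by
  refine ⟨fun k φ hφ => ?_, fun κ _ _ ho φ hφ => ?_, ?_⟩
  · obtain ⟨a, haE, e, heE, ha, he, hq⟩ := h.quad
    exact main4 h.mem h.gen h.four ha he haE heE hq k (wa_of_gA hφ)
  · exact cxf_zero (b := bs A) (odd_all' (sysw_full (bs A) (gA_full A)) h.van ho
      (cxf_kil' (𝔥 := gA A) hφ))
  · refine perf_of_central fun Z hZ hc => ?_
    obtain ⟨f, rfl⟩ := h.gen Z hZ (hc P h.mem.1)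
    exact (aeval_ES h.mem f).2

section sub

variable {n : ℕ} {C : AbVar n} {f : A.H1 →ₗ[ℚ] C.H1}

/-- An invariant bilinear alternating form is given by a symmetric endomorphism. -/
theorem exists_ES {B : A.H1 →ₗ[ℚ] A.H1 →ₗ[ℚ] ℚ} (h0 : ∀ u, B u u = 0)
    (h : ∀ X ∈ gA A, ∀ u v, B (X u) v + B u (X v) = 0) : ∃ Q ∈ ES A, B = omP Q := by
  have hanti : ∀ u v, B u v = -B v u := by
    intro u v
    have h1 := h0 (u + v)
    simp only [map_add, LinearMap.add_apply, h0] at h1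
    linarith
  have h1 : ∀ v, ∃ w, ∀ u, A.om u w = B u v := by
    intro v
    obtain ⟨w, hw⟩ := A.om_surj (f := -(B.flip v))
    refine ⟨w, fun u => ?_⟩
    rw [A.om_anti, hw, LinearMap.neg_apply, neg_neg, LinearMap.flip_apply]
  choose q hq using h1
  have hinj : ∀ w w' : A.H1, (∀ u, A.om u w = A.om u w') → w = w' := by
    intro w w' h2
    rw [← sub_eq_zero]
    apply A.om_nondeg
    intro u
    rw [A.om_anti, map_sub, h2, sub_self, neg_zero]
  let Q : Module.End ℚ A.H1 :=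
    { toFun := q
      map_add' := fun v v' => hinj _ _ fun u => by
        rw [map_add, hq, hq, hq, map_add]
      map_smul' := fun c v => hinj _ _ fun u => by
        rw [RingHom.id_apply, map_smul, hq, hq, map_smul] }
  have hQ : ∀ u v, A.om u (Q v) = B u v := fun u v => hq v u
  refine ⟨Q, ⟨?_, fun u v => ?_⟩, ?_⟩
  · have h2 := (gA_full A).comm Q fun X hX => by
      refine LinearMap.ext fun v => hinj _ _ fun u => ?_
      change A.om u (X (Q v)) = A.om u (Q (X v))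
      rw [hQ]
      have h3 := A.NA_skew ((gA_full A).le hX) u (Q v)
      rw [hQ] at h3
      have h4 := h X hX u v
      linarith
    exact fun X hX => h2 X (A.LA_le_NA hX)
  · rw [A.om_anti, hQ, hQ, hanti, neg_neg]
  · refine LinearMap.ext fun u => LinearMap.ext fun v => ?_
    rw [omP_apply, hQ]

/-- There is an equivariant retraction. -/
theorem exists_retract (hf : IsHm A C f) (hinj : Injective f) : ∃ s : C.H1 →ₗ[ℚ] A.H1,
    (∀ u, s (f u) = u) ∧ ∀ ℓ ∈ LU, ∀ w, ID.nU A ℓ (s w) = s (ID.nU C ℓ w) := by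
  have hst : ∀ X ∈ gA C, ∀ u ∈ LinearMap.range f, X u ∈ LinearMap.range f := by
    rintro _ ⟨ℓ, hℓ, rfl⟩ _ ⟨u, rfl⟩
    exact ⟨ID.nU A ℓ u, (nU_hom hf hℓ u).symm⟩
  obtain ⟨U', hU', hc⟩ := (gA_full C).semi (LinearMap.range f) hst
  let e := Submodule.linearProjOfIsCompl _ _ hc
  let i : A.H1 ≃ₗ[ℚ] LinearMap.range f := LinearEquiv.ofInjective f hinj
  let s : C.H1 →ₗ[ℚ] A.H1 := i.symm.toLinearMap.comp e
  have hs1 : ∀ u, s (f u) = u := by
    intro u
    change i.symm (e (f u)) = u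
    have h1 : e (f u) = i u := by
      have h2 : f u = ((i u : LinearMap.range f) : C.H1) := rfl
      rw [h2]
      exact Submodule.linearProjOfIsCompl_apply_left hc (i u)
    rw [h1, LinearEquiv.symm_apply_apply]
  have hs2 : ∀ u ∈ U', s u = 0 := by
    intro u hu
    change i.symm (e u) = 0
    have h1 : e u = 0 := Submodule.linearProjOfIsCompl_apply_right hc ⟨u, hu⟩
    rw [h1, map_zero]
  refine ⟨s, hs1, fun ℓ hℓ w => ?_⟩
  have hw : w ∈ LinearMap.range f ⊔ U' := by rw [hc.sup_eq_top]; trivial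
  obtain ⟨_, ⟨u, rfl⟩, y, hy, rfl⟩ := Submodule.mem_sup.1 hw
  have h1 : ID.nU C ℓ y ∈ U' := hU' _ ⟨ℓ, hℓ, rfl⟩ y hy
  rw [map_add s (f u) y, hs1, hs2 y hy, add_zero, map_add (ID.nU C ℓ) (f u) y, map_add s,
    hs2 _ h1, add_zero, nU_hom hf hℓ, hs1]

/-- Pullbacks of annihilated forms. -/
theorem kil_pull {s : C.H1 →ₗ[ℚ] A.H1}
    (hs : ∀ ℓ ∈ LU, ∀ w, ID.nU A ℓ (s w) = s (ID.nU C ℓ w)) {κ : Type} [Fintype κ]
    [DecidableEq κ] {φ : A.H1 [⋀^κ]→ₗ[ℚ] ℚ} (hφ : KilA A φ) :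
    KilA C (φ.compLinearMap s) := by
  rintro _ ⟨ℓ, hℓ, rfl⟩ v
  rw [← hφ (ID.nU A ℓ) ⟨ℓ, hℓ, rfl⟩ fun i => s (v i)]
  refine Finset.sum_congr rfl fun i _ => ?_
  rw [AlternatingMap.compLinearMap_apply]
  congr 1
  funext j
  by_cases h : j = i
  · subst h
    rw [update_self, update_self, hs ℓ hℓ]
  · rw [update_of_ne h, update_of_ne h]

/-- Pullbacks of products. -/
theorem QS_pull (hf : IsHm A C f) {ψ : AF C k} (hψ : ψ ∈ QS C k) :
    ψ.compLinearMap f ∈ QS A k := by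
  unfold QS at hψ
  refine Submodule.span_induction (p := fun ψ _ => ψ.compLinearMap f ∈ QS A k)
    ?_ ?_ ?_ ?_ hψ
  · rintro _ ⟨P, hP, rfl⟩
    have h1 : ∀ i, ∃ Q ∈ ES A, ((omP (P i)).compl₁₂ f f) = omP Q := by
      intro i
      refine exists_ES (fun u => ?_) ?_
      · rw [LinearMap.compl₁₂_apply, omP_apply]
        have h2 := (hP i).2 (f u) (f u)
        rw [C.om_anti] at h2
        linarith
      · rintro _ ⟨ℓ, hℓ, rfl⟩ u v
        rw [LinearMap.compl₁₂_apply, LinearMap.compl₁₂_apply, ← nU_hom hf hℓ, ← nU_hom hf hℓ]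
        exact omP_kills (hP i).1 (gA_le_LA ⟨ℓ, hℓ, rfl⟩) _ _
    choose Q hQ hQe using h1
    refine Submodule.subset_span ⟨Q, hQ, ?_⟩
    refine AlternatingMap.ext fun v => ?_
    rw [AlternatingMap.compLinearMap_apply, prd_apply, prd_apply]
    refine Finset.sum_congr rfl fun σ _ => ?_
    congr 1
    change ∏ i, omP (P i) (f (v (σ (i, 0)))) (f (v (σ (i, 1)))) =
      ∏ i, omP (Q i) (v (σ (i, 0))) (v (σ (i, 1)))
    refine Finset.prod_congr rfl fun i _ => ?_
    rw [← hQe i]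
    rfl
  · have h0 : (0 : AF C k).compLinearMap f = 0 := by
      refine AlternatingMap.ext fun v => ?_
      rfl
    rw [h0]
    exact Submodule.zero_mem _
  · intro x y _ _ hx hy
    have h0 : (x + y).compLinearMap f = x.compLinearMap f + y.compLinearMap f := by
      refine AlternatingMap.ext fun v => ?_
      rfl
    rw [h0]
    exact Submodule.add_mem _ hx hy
  · intro c x _ hx
    have h0 : (c • x).compLinearMap f = c • x.compLinearMap f := by
      refine AlternatingMap.ext fun v => ?_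
      rfl
    rw [h0]
    exact Submodule.smul_mem _ c hx

/-- **Subvarieties.** -/
theorem Good.of_sub (hC : Good C) (hf : IsHm A C f) (hinj : Injective f) : Good A := by
  obtain ⟨s, hs1, hs2⟩ := exists_retract hf hinj
  have hback : ∀ {κ : Type} [Fintype κ] [DecidableEq κ] (φ : A.H1 [⋀^κ]→ₗ[ℚ] ℚ),
      (φ.compLinearMap s).compLinearMap f = φ := by
    intro κ _ _ φ
    refine AlternatingMap.ext fun v => ?_
    rw [AlternatingMap.compLinearMap_apply, AlternatingMap.compLinearMap_apply]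
    congr 1
    funext i
    exact hs1 (v i)
  refine ⟨fun k φ hφ => ?_, fun κ _ _ ho φ hφ => ?_, ?_⟩
  · rw [← hback φ]
    exact QS_pull hf (hC.even k _ (kil_pull hs2 hφ))
  · rw [← hback φ, hC.odd κ ho _ (kil_pull hs2 hφ)]
    refine AlternatingMap.ext fun v => ?_
    rfl
  · have key : ∀ Z ∈ brk (gA C) (gA C), ∃ Z' ∈ brk (gA A) (gA A), ∀ u, Z (f u) = f (Z' u) := by
      intro Z hZ
      unfold brk at hZ
      refine Submodule.span_induction (p := fun Z _ => ∃ Z' ∈ brk (gA A) (gA A),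
        ∀ u, Z (f u) = f (Z' u)) ?_ ?_ ?_ ?_ hZ
      · rintro _ ⟨_, ⟨x, hx, rfl⟩, _, ⟨y, hy, rfl⟩, rfl⟩
        refine ⟨ID.nU A x * ID.nU A y - ID.nU A y * ID.nU A x,
          Submodule.subset_span ⟨_, ⟨x, hx, rfl⟩, _, ⟨y, hy, rfl⟩, rfl⟩, fun u => ?_⟩
        change ID.nU C x (ID.nU C y (f u)) - ID.nU C y (ID.nU C x (f u)) =
          f (ID.nU A x (ID.nU A y u) - ID.nU A y (ID.nU A x u))
        rw [nU_hom hf hy, nU_hom hf hx, nU_hom hf hx, nU_hom hf hy, map_sub]
      · exact ⟨0, Submodule.zero_mem _, fun u => by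
          rw [LinearMap.zero_apply, LinearMap.zero_apply, map_zero]⟩
      · rintro x y _ _ ⟨x', hx', hx⟩ ⟨y', hy', hy⟩
        exact ⟨x' + y', Submodule.add_mem _ hx' hy', fun u => by
          rw [LinearMap.add_apply, LinearMap.add_apply, map_add, hx, hy]⟩
      · rintro c x _ ⟨x', hx', hx⟩
        exact ⟨c • x', Submodule.smul_mem _ c hx', fun u => by
          rw [LinearMap.smul_apply, LinearMap.smul_apply, map_smul, hx]⟩
    rintro _ ⟨ℓ, hℓ, rfl⟩
    obtain ⟨Z', hZ', h1⟩ := key _ (hC.perf ⟨ℓ, hℓ, rfl⟩)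
    have h2 : ID.nU A ℓ = Z' := by
      refine LinearMap.ext fun u => hinj ?_
      rw [← h1 u, ← nU_hom hf hℓ]
    rw [← h2] at hZ'
    exact hZ'

end sub

end

end Pool.Agent.V5helper88.KK
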