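import Pool.Agent.V5helper88.L.L2

/-!
Abelian varieties of type four, products and squares.
-/

set_option autoImplicit false

namespace Pool.Agent.V5helper88.KK

open Matrix Module Function Pool.Agent.Y102 Pool.Agent.W516.DR Pool.Agent.H204R3.GP
  Pool.Agent.W516.KC Pool.Agent.H204R3.SP Pool.Agent.N208.BT Pool.Agent.V5helper88.HR Polynomial
  Pool.Agent.N192.GP Pool.Agent.V5helper88.ID

noncomputable section

variable {g g' : ℕ}

/-- The diagonal endomorphism of a product. -/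
def dg (A : AbVar g) (B : AbVar g') (p : Module.End ℚ A.H1) (q : Module.End ℚ B.H1) :
    Module.End ℚ (ID.prod A B).H1 :=
  (κ1 g g').comp (LinearMap.comp p (π1 g g')) + (κ2 g g').comp (LinearMap.comp q (π2 g g'))

variable {A : AbVar g} {B : AbVar g'}

theorem dg_apply (p : Module.End ℚ A.H1) (q : Module.End ℚ B.H1) (u : (ID.prod A B).H1) :
    dg A B p q u = κ1 g g' (p (π1 g g' u)) + κ2 g g' (q (π2 g g' u)) := rfl

theorem π1_dg (p : Module.End ℚ A.H1) (q : Module.End ℚ B.H1) (u : (ID.prod A B).H1) :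
    π1 g g' (dg A B p q u) = p (π1 g g' u) := by
  rw [dg_apply, map_add, π1_κ1, π1_κ2, add_zero]

theorem π2_dg (p : Module.End ℚ A.H1) (q : Module.End ℚ B.H1) (u : (ID.prod A B).H1) :
    π2 g g' (dg A B p q u) = q (π2 g g' u) := by
  rw [dg_apply, map_add, π2_κ1, π2_κ2, zero_add]

theorem dg_mul (p p' : Module.End ℚ A.H1) (q q' : Module.End ℚ B.H1) :
    dg A B p q * dg A B p' q' = dg A B (p * p') (q * q') := by
  refine LinearMap.ext fun u => ext_π ?_ ?_
  · rw [Module.End.mul_apply, π1_dg, π1_dg, π1_dg]; rfl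
  · rw [Module.End.mul_apply, π2_dg, π2_dg, π2_dg]; rfl

theorem dg_add (p p' : Module.End ℚ A.H1) (q q' : Module.End ℚ B.H1) :
    dg A B p q + dg A B p' q' = dg A B (p + p') (q + q') := by
  refine LinearMap.ext fun u => ext_π ?_ ?_
  · rw [LinearMap.add_apply, map_add, π1_dg, π1_dg, π1_dg]; rfl
  · rw [LinearMap.add_apply, map_add, π2_dg, π2_dg, π2_dg]; rfl

theorem dg_one : dg A B 1 1 = 1 := by
  refine LinearMap.ext fun u => ?_
  rw [dg_apply]
  exact κ_π u

/-- The homomorphism of algebras. -/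
def dgA (A : AbVar g) (B : AbVar g') :
    (Module.End ℚ A.H1 × Module.End ℚ B.H1) →ₐ[ℚ] Module.End ℚ (ID.prod A B).H1 :=
  AlgHom.ofLinearMap
    { toFun := fun x => dg A B x.1 x.2
      map_add' := fun x y => (dg_add x.1 y.1 x.2 y.2).symm
      map_smul' := fun c x => by
        refine LinearMap.ext fun u => ext_π ?_ ?_
        · rw [RingHom.id_apply, LinearMap.smul_apply, map_smul, π1_dg, π1_dg]; rfl
        · rw [RingHom.id_apply, LinearMap.smul_apply, map_smul, π2_dg, π2_dg]; rfl }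
    dg_one fun x y => (dg_mul x.1 y.1 x.2 y.2).symm

theorem dgA_apply (p : Module.End ℚ A.H1) (q : Module.End ℚ B.H1) :
    dgA A B (p, q) = dg A B p q := rfl

theorem aeval_dg (p : Module.End ℚ A.H1) (q : Module.End ℚ B.H1) (f : ℚ[X]) :
    aeval (dg A B p q) f = dg A B (aeval p f) (aeval q f) := by
  rw [← dgA_apply, aeval_algHom_apply]
  have h1 : aeval (p, q) f = (aeval p f, aeval q f) := by
    refine Prod.ext ?_ ?_
    · exact (aeval_algHom_apply (AlgHom.fst ℚ (Module.End ℚ A.H1) (Module.End ℚ B.H1))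
        (p, q) f).symm
    · exact (aeval_algHom_apply (AlgHom.snd ℚ (Module.End ℚ A.H1) (Module.End ℚ B.H1))
        (p, q) f).symm
  rw [h1]
  rfl

/-- The identification of the homology. -/
def Θ (A : AbVar g) (B : AbVar g') : (A.H1 × B.H1) ≃ₗ[ℚ] (ID.prod A B).H1 where
  toFun x := κ1 g g' x.1 + κ2 g g' x.2
  invFun u := (π1 g g' u, π2 g g' u)
  map_add' x y := by
    rw [Prod.fst_add, Prod.snd_add, map_add, map_add]
    abel
  map_smul' c x := by
    rw [Prod.smul_fst, Prod.smul_snd, map_smul, map_smul, RingHom.id_apply, smul_add]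
  left_inv x := Prod.ext (by
      change π1 g g' (κ1 g g' x.1 + κ2 g g' x.2) = _
      rw [map_add, π1_κ1, π1_κ2, add_zero]) (by
      change π2 g g' (κ1 g g' x.1 + κ2 g g' x.2) = _
      rw [map_add, π2_κ1, π2_κ2, zero_add])
  right_inv u := κ_π u

theorem charpoly_dg (p : Module.End ℚ A.H1) (q : Module.End ℚ B.H1) :
    (dg A B p q).charpoly = p.charpoly * q.charpoly := by
  have h1 : dg A B p q = (Θ A B).conj (LinearMap.prodMap p q) := by
    refine LinearMap.ext fun u => ?_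
    rw [LinearEquiv.conj_apply_apply]
    rfl
  rw [h1, LinearEquiv.charpoly_conj, LinearMap.charpoly_prodMap]

theorem dg_EA {p : Module.End ℚ A.H1} {q : Module.End ℚ B.H1} (hp : p ∈ A.EA) (hq : q ∈ B.EA) :
    dg A B p q ∈ (ID.prod A B).EA := by
  have h1 : IsHm (ID.prod A B) (ID.prod A B) ((κ1 g g').comp (LinearMap.comp p (π1 g g'))) :=
    IsHm.comp hm_κ1 (IsHm.comp (isHm_end.2 hp) hm_π1)
  have h2 : IsHm (ID.prod A B) (ID.prod A B) ((κ2 g g').comp (LinearMap.comp q (π2 g g'))) :=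
    IsHm.comp hm_κ2 (IsHm.comp (isHm_end.2 hq) hm_π2)
  exact (ID.prod A B).EA.add_mem (isHm_end.1 h1) (isHm_end.1 h2)

theorem dg_ES {p : Module.End ℚ A.H1} {q : Module.End ℚ B.H1} (hp : p ∈ ES A) (hq : q ∈ ES B) :
    dg A B p q ∈ ES (ID.prod A B) := by
  refine ⟨dg_EA hp.1 hq.1, fun u v => ?_⟩
  rw [prod_om, prod_om, π1_dg, π2_dg, π1_dg, π2_dg, hp.2, hq.2]

/-- The entries of an endomorphism. -/
theorem e11 {X : Module.End ℚ (ID.prod A B).H1} (hX : X ∈ (ID.prod A B).EA) :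
    (π1 g g').comp (LinearMap.comp X (κ1 g g')) ∈ A.EA :=
  isHm_end.1 (IsHm.comp hm_π1 (IsHm.comp (isHm_end.2 hX) hm_κ1))

theorem e22 {X : Module.End ℚ (ID.prod A B).H1} (hX : X ∈ (ID.prod A B).EA) :
    (π2 g g').comp (LinearMap.comp X (κ2 g g')) ∈ B.EA :=
  isHm_end.1 (IsHm.comp hm_π2 (IsHm.comp (isHm_end.2 hX) hm_κ2))

theorem e12' {X : Module.End ℚ (ID.prod A B).H1} (hX : X ∈ (ID.prod A B).EA) :
    IsHm B A ((π1 g g').comp (LinearMap.comp X (κ2 g g'))) :=
  IsHm.comp hm_π1 (IsHm.comp (isHm_end.2 hX) hm_κ2)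

theorem e21' {X : Module.End ℚ (ID.prod A B).H1} (hX : X ∈ (ID.prod A B).EA) :
    IsHm A B ((π2 g g').comp (LinearMap.comp X (κ1 g g'))) :=
  IsHm.comp hm_π2 (IsHm.comp (isHm_end.2 hX) hm_κ1)

theorem eq_dg {X : Module.End ℚ (ID.prod A B).H1}
    (h1 : (π1 g g').comp (LinearMap.comp X (κ2 g g')) = 0)
    (h2 : (π2 g g').comp (LinearMap.comp X (κ1 g g')) = 0) :
    X = dg A B ((π1 g g').comp (LinearMap.comp X (κ1 g g')))
      ((π2 g g').comp (LinearMap.comp X (κ2 g g'))) := by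
  refine LinearMap.ext fun u => ?_
  have e1 : ∀ v, π1 g g' (X (κ2 g g' v)) = 0 := fun v => LinearMap.congr_fun h1 v
  have e2 : ∀ v, π2 g g' (X (κ1 g g' v)) = 0 := fun v => LinearMap.congr_fun h2 v
  have e3 : X u = X (κ1 g g' (π1 g g' u)) + X (κ2 g g' (π2 g g' u)) := by
    rw [← map_add, κ_π]
  refine ext_π ?_ ?_
  · rw [π1_dg, e3, map_add, e1, add_zero]; rfl
  · rw [π2_dg, e3, map_add, e2, zero_add]; rfl

/-- The Chinese remainder theorem. -/
theorem crt {p : Module.End ℚ A.H1} {q : Module.End ℚ B.H1}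
    (h : ∀ z : ℂ, (p.charpoly.map (algebraMap ℚ ℂ)).IsRoot z →
      ¬(q.charpoly.map (algebraMap ℚ ℂ)).IsRoot z) (f₁ f₂ : ℚ[X]) :
    ∃ f : ℚ[X], aeval p f = aeval p f₁ ∧ aeval q f = aeval q f₂ := by
  have hc : IsCoprime (minpoly ℚ p) (minpoly ℚ q) := by
    rw [← Polynomial.isCoprime_map (algebraMap ℚ ℂ)]
    refine isCoprime_of_dvd _ _ ?_ ?_
    · rintro ⟨h1, -⟩
      exact min_ne p h1
    · intro z hz hz0 h1 h2
      obtain ⟨x, hx⟩ := IsAlgClosed.exists_root z fun hd => hz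
        (Polynomial.isUnit_iff_degree_eq_zero.2 hd)
      have h3 : ((minpoly ℚ p).map (algebraMap ℚ ℂ)).IsRoot x := hx.dvd h1
      have h4 : ((minpoly ℚ q).map (algebraMap ℚ ℂ)).IsRoot x := hx.dvd h2
      refine h x (h3.dvd ?_) (h4.dvd ?_)
      · exact Polynomial.map_dvd _ (LinearMap.minpoly_dvd_charpoly p)
      · exact Polynomial.map_dvd _ (LinearMap.minpoly_dvd_charpoly q)
  obtain ⟨a, c, hac⟩ := hc
  refine ⟨f₁ * (c * minpoly ℚ q) + f₂ * (a * minpoly ℚ p), ?_, ?_⟩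
  · have h1 := congrArg (aeval p) hac
    rw [map_add, map_mul (aeval p) a, minpoly.aeval, mul_zero, zero_add, map_one] at h1
    rw [map_add, map_mul (aeval p) f₁, map_mul (aeval p) f₂, h1, map_mul (aeval p) a,
      minpoly.aeval, mul_zero, mul_zero, add_zero, mul_one]
  · have h1 := congrArg (aeval q) hac
    rw [map_add, map_mul (aeval q) c, minpoly.aeval, mul_zero, add_zero, map_one] at h1
    rw [map_add, map_mul (aeval q) f₁, map_mul (aeval q) f₂, h1, map_mul (aeval q) c,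
      minpoly.aeval, mul_zero, mul_zero, zero_add, mul_one]

/-- All roots of the characteristic polynomial are of multiplicity four. -/
def Four (p : Module.End ℚ A.H1) : Prop :=
  ∀ z : ℂ, (p.charpoly.map (algebraMap ℚ ℂ)).IsRoot z →
    (p.charpoly.map (algebraMap ℚ ℂ)).rootMultiplicity z = 4

theorem chi_ne (p : Module.End ℚ A.H1) : p.charpoly.map (algebraMap ℚ ℂ) ≠ 0 :=
  ((LinearMap.charpoly_monic p).map _).ne_zero

theorem four_dg {p : Module.End ℚ A.H1} {q : Module.End ℚ B.H1} (hp : Four p) (hq : Four q)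
    (h : ∀ z : ℂ, (p.charpoly.map (algebraMap ℚ ℂ)).IsRoot z →
      ¬(q.charpoly.map (algebraMap ℚ ℂ)).IsRoot z) : Four (A := ID.prod A B) (dg A B p q) := by
  intro z hz
  rw [charpoly_dg, Polynomial.map_mul] at hz ⊢
  rw [rootMultiplicity_mul (mul_ne_zero (chi_ne p) (chi_ne q))]
  rcases root_mul.1 hz with h1 | h1
  · rw [hp z h1, rootMultiplicity_eq_zero (h z h1)]
  · rw [hq z h1, rootMultiplicity_eq_zero fun h2 => h z h2 h1]

theorem charpoly_shift (p : Module.End ℚ A.H1) (n : ℚ) :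
    (p + n • (1 : Module.End ℚ A.H1)).charpoly = p.charpoly.comp (X + C (-n)) := by
  have h1 := LinearMap.charpoly_sub_smul p (-n)
  have h2 : p - (-n) • (1 : Module.End ℚ A.H1) = p + n • (1 : Module.End ℚ A.H1) := by
    refine LinearMap.ext fun u => ?_
    change p u - (-n) • u = p u + n • u
    rw [neg_smul, sub_neg_eq_add]
  rw [h2] at h1
  exact h1

theorem mult_shift (p : Module.End ℚ A.H1) (n : ℚ) (z : ℂ) :
    ((p + n • (1 : Module.End ℚ A.H1)).charpoly.map (algebraMap ℚ ℂ)).rootMultiplicity z =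
      (p.charpoly.map (algebraMap ℚ ℂ)).rootMultiplicity (z - (n : ℂ)) := by
  rw [charpoly_shift, Polynomial.map_comp, Polynomial.map_add, Polynomial.map_X,
    Polynomial.map_C]
  have h1 : (algebraMap ℚ ℂ) (-n) = -(n : ℂ) := by rw [map_neg]; rfl
  rw [h1, rootMultiplicity_eq_rootMultiplicity (t := z), Polynomial.comp_assoc,
    rootMultiplicity_eq_rootMultiplicity (t := z - (n : ℂ))]
  congr 2
  rw [Polynomial.add_comp, Polynomial.X_comp, Polynomial.C_comp, add_assoc, ← C_add]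
  have h2 : z + -(n : ℂ) = z - (n : ℂ) := by ring
  rw [h2]

theorem root_shift (p : Module.End ℚ A.H1) (n : ℚ) (z : ℂ) :
    ((p + n • (1 : Module.End ℚ A.H1)).charpoly.map (algebraMap ℚ ℂ)).IsRoot z ↔
      (p.charpoly.map (algebraMap ℚ ℂ)).IsRoot (z - (n : ℂ)) := by
  rw [← rootMultiplicity_pos (chi_ne _), ← rootMultiplicity_pos (chi_ne _), mult_shift]

theorem Four.shift {p : Module.End ℚ A.H1} (h : Four p) (n : ℚ) :
    Four (p + n • (1 : Module.End ℚ A.H1)) := by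
  intro z hz
  rw [mult_shift]
  exact h _ ((root_shift p n z).1 hz)

/-- A shift which makes the roots different. -/
theorem exists_shift (p : Module.End ℚ A.H1) (q : Module.End ℚ B.H1) : ∃ n : ℚ, n ≠ 0 ∧
    ∀ z : ℂ, (p.charpoly.map (algebraMap ℚ ℂ)).IsRoot z →
      ¬((q + n • (1 : Module.End ℚ B.H1)).charpoly.map (algebraMap ℚ ℂ)).IsRoot z := by
  classical
  let S : Finset ℂ := ((p.charpoly.map (algebraMap ℚ ℂ)).roots.toFinset ×ˢ
    (q.charpoly.map (algebraMap ℚ ℂ)).roots.toFinset).image fun x => x.1 - x.2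
  have hinf : Set.Infinite (Set.range fun n : ℕ => ((n : ℚ) + 1)) := by
    refine Set.infinite_range_of_injective fun m n h => ?_
    have h1 : ((m : ℚ) + 1) = n + 1 := h
    exact_mod_cast add_right_cancel h1
  have h2 : ∃ n : ℕ, ((((n : ℚ) + 1 : ℚ)) : ℂ) ∉ S := by
    by_contra hcon
    push Not at hcon
    have h3 : Set.Infinite (Set.range fun n : ℕ => ((((n : ℚ) + 1 : ℚ)) : ℂ)) := by
      refine Set.infinite_range_of_injective fun m n h => ?_
      have h1 : ((((m : ℚ) + 1 : ℚ)) : ℂ) = ((((n : ℚ) + 1 : ℚ)) : ℂ) := h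
      have h2 : ((m : ℚ) + 1) = n + 1 := by exact_mod_cast h1
      exact_mod_cast add_right_cancel h2
    refine h3 (Set.Finite.subset S.finite_toSet ?_)
    rintro _ ⟨n, rfl⟩
    exact hcon n
  obtain ⟨n, hn⟩ := h2
  refine ⟨(n : ℚ) + 1, by positivity, fun z hz hz' => hn ?_⟩
  rw [root_shift] at hz'
  refine Finset.mem_image.2 ⟨(z, z - (((n : ℚ) + 1 : ℚ) : ℂ)), Finset.mem_product.2
    ⟨Multiset.mem_toFinset.2 ((mem_roots (chi_ne p)).2 hz),
      Multiset.mem_toFinset.2 ((mem_roots (chi_ne q)).2 hz')⟩, ?_⟩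
  change z - (z - _) = _
  rw [sub_sub_cancel]

/-- An abelian variety of type four, with a generator of the algebra of endomorphisms. -/
structure T4 (A : AbVar g) (P : Module.End ℚ A.H1) : Prop where
  mem : P ∈ ES A
  gen : ∀ Q ∈ A.EA, ∃ f : ℚ[X], Q = aeval P f
  four : Four P

theorem one_ES : (1 : Module.End ℚ A.H1) ∈ ES A := by
  have h1 := aeval_ES (Submodule.zero_mem (ES A)) (1 : ℚ[X])
  rwa [map_one] at h1

theorem T4.shift {P : Module.End ℚ A.H1} (h : T4 A P) (n : ℚ) :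
    T4 A (P + n • (1 : Module.End ℚ A.H1)) := by
  refine ⟨(ES A).add_mem h.mem ((ES A).smul_mem n one_ES), fun Q hQ => ?_, h.four.shift n⟩
  obtain ⟨f, rfl⟩ := h.gen Q hQ
  refine ⟨f.comp (X - C n), ?_⟩
  rw [aeval_comp, map_sub, aeval_X, aeval_C, Algebra.algebraMap_eq_smul_one, add_sub_cancel_right]

theorem T4.times {P : Module.End ℚ A.H1} {Q : Module.End ℚ B.H1} (hA : T4 A P) (hB : T4 B Q)
    (h1 : ∀ f, IsHm A B f → f = 0) (h2 : ∀ f, IsHm B A f → f = 0) :
    ∃ R, T4 (ID.prod A B) R := by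
  obtain ⟨n, -, hn⟩ := exists_shift P Q
  have hB' := hB.shift n
  refine ⟨dg A B P (Q + n • (1 : Module.End ℚ B.H1)), dg_ES hA.mem hB'.mem, fun X hX => ?_,
    four_dg hA.four hB'.four hn⟩
  rw [eq_dg (h2 _ (e12' hX)) (h1 _ (e21' hX))]
  obtain ⟨f₁, hf₁⟩ := hA.gen _ (e11 hX)
  obtain ⟨f₂, hf₂⟩ := hB'.gen _ (e22 hX)
  obtain ⟨f, hf, hf'⟩ := crt hn f₁ f₂
  exact ⟨f, by rw [aeval_dg, hf, hf', hf₁, hf₂]⟩

theorem T4.comm {P : Module.End ℚ A.H1} (h : T4 A P) {x y : Module.End ℚ A.H1} (hx : x ∈ A.EA)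
    (hy : y ∈ A.EA) : x * y = y * x := by
  obtain ⟨f, rfl⟩ := h.gen x hx
  obtain ⟨f', rfl⟩ := h.gen y hy
  rw [← map_mul, ← map_mul, mul_comm f f']

/-- **Squares.** -/
theorem T4.square {P : Module.End ℚ A.H1} (h : T4 A P) : ∃ R, Dbl (ID.prod A A) R := by
  obtain ⟨n, hn0, hn⟩ := exists_shift P P
  have h' := h.shift n
  set P' : Module.End ℚ A.H1 := P + n • (1 : Module.End ℚ A.H1) with hP'
  have hcP' : ∀ x ∈ A.EA, x * P' = x * P + n • x := by
    intro x _
    rw [hP', mul_add, mul_smul_comm, mul_one]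
  have hent : ∀ {x : Module.End ℚ A.H1}, x ∈ A.EA → x * P' = P * x → x = 0 := by
    intro x hx h1
    rw [hcP' x hx, h.comm hx h.mem.1, add_eq_left] at h1
    exact (smul_eq_zero.1 h1).resolve_left hn0
  have hent' : ∀ {x : Module.End ℚ A.H1}, x ∈ A.EA → x * P = P' * x → x = 0 := by
    intro x hx h1
    rw [← h'.comm hx h'.mem.1, hcP' x hx, eq_comm, add_eq_left] at h1
    exact (smul_eq_zero.1 h1).resolve_left hn0
  have hPP : P * P ∈ A.EA := by
    have h1 := (aeval_ES h.mem (X * X)).1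
    rwa [map_mul, aeval_X] at h1
  have hPP' : P * P' ∈ A.EA := by
    rw [hcP' P h.mem.1]
    exact A.EA.add_mem hPP (A.EA.smul_mem n h.mem.1)
  have hS : P + P' ∈ A.EA := A.EA.add_mem h.mem.1 h'.mem.1
  have hcen : ∀ c ∈ A.EA, ∀ Q ∈ (ID.prod A A).EA, dg A A c c * Q = Q * dg A A c c := by
    intro c hc Q hQ
    have f11 := h.comm hc (e11 hQ)
    have f22 := h.comm hc (e22 hQ)
    have f12 := h.comm hc (isHm_end.1 (e12' hQ))
    have f21 := h.comm hc (isHm_end.1 (e21' hQ))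
    refine LinearMap.ext fun u => ?_
    have hu : u = κ1 g g (π1 g g u) + κ2 g g (π2 g g u) := (κ_π u).symm
    have g11 : ∀ v, c (π1 g g (Q (κ1 g g v))) = π1 g g (Q (κ1 g g (c v))) := fun v =>
      LinearMap.congr_fun f11 v
    have g22 : ∀ v, c (π2 g g (Q (κ2 g g v))) = π2 g g (Q (κ2 g g (c v))) := fun v =>
      LinearMap.congr_fun f22 v
    have g12 : ∀ v, c (π1 g g (Q (κ2 g g v))) = π1 g g (Q (κ2 g g (c v))) := fun v =>
      LinearMap.congr_fun f12 v
    have g21 : ∀ v, c (π2 g g (Q (κ1 g g v))) = π2 g g (Q (κ1 g g (c v))) := fun v =>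
      LinearMap.congr_fun f21 v
    rw [Module.End.mul_apply, Module.End.mul_apply]
    refine ext_π ?_ ?_
    · rw [π1_dg, dg_apply, map_add Q, map_add (π1 g g), ← g11, ← g12, ← map_add, ← map_add,
        ← map_add, ← hu]
    · rw [π2_dg, dg_apply, map_add Q, map_add (π2 g g), ← g21, ← g22, ← map_add, ← map_add,
        ← map_add, ← hu]
  refine ⟨dg A A P P', dg_ES h.mem h'.mem, fun X hX hc => ?_, four_dg h.four h'.four hn,
    dg A A (P + P') (P + P'), dg_EA hS hS, dg A A (-(P * P')) (-(P * P')),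
    dg_EA (A.EA.neg_mem hPP') (A.EA.neg_mem hPP'), hcen _ hS, hcen _ (A.EA.neg_mem hPP'), ?_⟩
  · have k12 : (π1 g g).comp (LinearMap.comp X (κ2 g g)) = 0 := by
      refine hent (isHm_end.1 (e12' hX)) ?_
      refine LinearMap.ext fun u => ?_
      have h1 := congrArg (π1 g g) (LinearMap.congr_fun hc (κ2 g g u))
      rw [Module.End.mul_apply, Module.End.mul_apply, π1_dg, dg_apply, π1_κ2, π2_κ2, map_zero,
        map_zero, zero_add] at h1
      exact h1
    have k21 : (π2 g g).comp (LinearMap.comp X (κ1 g g)) = 0 := by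
      refine hent' (isHm_end.1 (e21' hX)) ?_
      refine LinearMap.ext fun u => ?_
      have h1 := congrArg (π2 g g) (LinearMap.congr_fun hc (κ1 g g u))
      rw [Module.End.mul_apply, Module.End.mul_apply, π2_dg, dg_apply, π1_κ1, π2_κ1, map_zero,
        map_zero, add_zero] at h1
      exact h1
    rw [eq_dg k12 k21]
    obtain ⟨f₁, hf₁⟩ := h.gen _ (e11 hX)
    obtain ⟨f₂, hf₂⟩ := h'.gen _ (e22 hX)
    obtain ⟨f, hf, hf'⟩ := crt hn f₁ f₂
    exact ⟨f, by rw [aeval_dg, hf, hf', hf₁, hf₂]⟩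
  · have hcm := h.comm h.mem.1 h'.mem.1
    rw [dg_mul, dg_mul, dg_add]
    have e1 : P * P = (P + P') * P + -(P * P') := by
      rw [add_mul, ← hcm, add_neg_cancel_right]
    have e2 : P' * P' = (P + P') * P' + -(P * P') := by
      have e3 : (P + P') * P' = P' * P' + P * P' := by rw [add_mul P P' P', add_comm (P * P')]
      rw [e3, add_neg_cancel_right]
    rw [← e1, ← e2]

end

end Pool.Agent.V5helper88.KK
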