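import Pool.Agent.V5helper88.L.L3
import Pool.Agent.V5helper88.ID.I7

/-!
Abelian varieties of type four, and subvarieties of squares of products.
-/

set_option autoImplicit false

namespace Pool.Agent.V5helper88.KK

open Matrix Module Function Pool.Agent.Y102 Pool.Agent.W516.DR Pool.Agent.H204R3.GP
  Pool.Agent.W516.KC Pool.Agent.H204R3.SP Pool.Agent.N208.BT Pool.Agent.V5helper88.HR Polynomial
  Pool.Agent.N192.GP Pool.Agent.V5helper88.ID

noncomputable section

section count

variable {g : ℕ} {A : AbVar g}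

/-- The roots of the characteristic polynomial are roots of the minimal polynomial. -/
theorem root_min {P : Module.End ℚ A.H1} (hP : P ∈ ES A) {z : ℂ}
    (hz : (P.charpoly.map (algebraMap ℚ ℂ)).IsRoot z) : z ∈ rts P := by
  have h1 := dim_Yz (b := bs A) hP z
  have h2 : 0 < (P.charpoly.map (algebraMap ℚ ℂ)).rootMultiplicity z :=
    (rootMultiplicity_pos (chi_ne P)).2 hz
  have h3 : Yz (cc (mt (bs A) P)) z ≠ ⊥ := by
    intro h0
    rw [h0, finrank_bot] at h1
    omega
  obtain ⟨v, hv, hv0⟩ := (Submodule.ne_bot_iff _).1 h3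
  rw [mem_rts]
  have h4 : aeval (cc (mt (bs A) P)) ((minpoly ℚ P).map (algebraMap ℚ ℂ)) *ᵥ v =
      ((minpoly ℚ P).map (algebraMap ℚ ℂ)).eval z • v := aeval_vec _ hv
  rw [← cc_aeval, minpoly.aeval, map_zero, cc_zero, zero_mulVec] at h4
  exact (smul_eq_zero.1 h4.symm).resolve_right hv0

/-- The powers of an element span the subspace, if there are enough of them. -/
theorem gen_of_count {R : Type} [Ring R] [Algebra ℚ R] (E : Submodule ℚ R)
    [FiniteDimensional ℚ E] {P : R}
    (hE : ∀ n : ℕ, P ^ n ∈ E) :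
    (minpoly ℚ P).natDegree ≤ finrank ℚ E ∧ (finrank ℚ E ≤ (minpoly ℚ P).natDegree →
      ∀ Q ∈ E, ∃ f : ℚ[X], Q = aeval P f) := by
  let f : Fin (minpoly ℚ P).natDegree → E := fun i => ⟨P ^ (i : ℕ), hE i⟩
  have hli : LinearIndependent ℚ f := by
    have h1 := linearIndependent_pow (K := ℚ) P
    exact LinearIndependent.of_comp E.subtype h1
  have hd : (minpoly ℚ P).natDegree ≤ finrank ℚ E := by
    have h1 := hli.fintype_card_le_finrank
    rwa [Fintype.card_fin] at h1
  refine ⟨hd, fun hd' Q hQ => ?_⟩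
  have hfd : (minpoly ℚ P).natDegree = finrank ℚ E := le_antisymm hd hd'
  have h1 : Submodule.span ℚ (Set.range f) = ⊤ :=
    hli.span_eq_top_of_card_eq_finrank' ((Fintype.card_fin _).trans hfd)
  have h2 : (⟨Q, hQ⟩ : E) ∈ Submodule.span ℚ (Set.range f) := by rw [h1]; trivial
  obtain ⟨c, hc'⟩ := (Submodule.mem_span_range_iff_exists_fun ℚ).1 h2
  refine ⟨∑ i, C (c i) * X ^ (i : ℕ), ?_⟩
  have h3 := congrArg (fun x : E => (x : R)) hc'
  simp only [AddSubmonoidClass.coe_finsetSum, SetLike.val_smul] at h3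
  rw [map_sum, ← h3]
  refine Finset.sum_congr rfl fun i _ => ?_
  rw [map_mul, aeval_C, map_pow, aeval_X, Algebra.algebraMap_eq_smul_one, smul_mul_assoc,
    one_mul]

/-- The number of the roots. -/
theorem roots_count {χ : ℂ[X]} {S : Finset ℂ} {m n : ℕ} (hχ : χ ≠ 0)
    (hdeg : m * n ≤ χ.natDegree)
    (hS : ∀ z, χ.IsRoot z → z ∈ S) (hm : ∀ z, χ.rootMultiplicity z ≤ m) (hc : S.card ≤ n)
    (hm0 : 0 < m) :
    n ≤ S.card ∧ ∀ z, χ.IsRoot z → χ.rootMultiplicity z = m := by
  classical
  have hcard : Multiset.card χ.roots = χ.natDegree :=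
    (IsAlgClosed.splits χ).natDegree_eq_card_roots.symm
  have hsum : ∑ z ∈ χ.roots.toFinset, χ.roots.count z = χ.natDegree := by
    rw [Multiset.toFinset_sum_count_eq, hcard]
  have hsub : χ.roots.toFinset ⊆ S := fun z hz =>
    hS z ((mem_roots hχ).1 (Multiset.mem_toFinset.1 hz))
  have hle : ∑ z ∈ χ.roots.toFinset, χ.roots.count z ≤ ∑ _z ∈ χ.roots.toFinset, m := by
    refine Finset.sum_le_sum fun z _ => ?_
    rw [count_roots]
    exact hm z
  have hcle := Finset.card_le_card hsub
  have hconst : ∑ _z ∈ χ.roots.toFinset, m = m * χ.roots.toFinset.card := by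
    rw [Finset.sum_const, smul_eq_mul, mul_comm]
  rw [hsum, hconst] at hle
  have h1 : n ≤ χ.roots.toFinset.card := Nat.le_of_mul_le_mul_left (hdeg.trans hle) hm0
  refine ⟨h1.trans hcle, fun z hz => ?_⟩
  by_contra hne
  have hzr : z ∈ χ.roots.toFinset := Multiset.mem_toFinset.2 ((mem_roots hχ).2 hz)
  have h4 : ∑ z ∈ χ.roots.toFinset, χ.roots.count z < ∑ _z ∈ χ.roots.toFinset, m := by
    refine Finset.sum_lt_sum (fun w _ => ?_) ⟨z, hzr, ?_⟩
    · rw [count_roots]
      exact hm w
    · rw [count_roots]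
      exact lt_of_le_of_ne (hm z) hne
  rw [hsum, hconst] at h4
  have h5 : χ.roots.toFinset.card ≤ n := hcle.trans hc
  exact absurd (Nat.lt_of_mul_lt_mul_left (hdeg.trans_lt h4)) (by omega)

/-- **The count.** -/
theorem t4_of_count (hs : Sy A) {P : Module.End ℚ A.H1} (hP : P ∈ A.EA)
    (hm : ∀ z : ℂ, (P.charpoly.map (algebraMap ℚ ℂ)).rootMultiplicity z ≤ 4)
    (hc : 4 * finrank ℚ A.EA ≤ 2 * g) : T4 A P := by
  have hES : P ∈ ES A := ⟨hP, hs P hP⟩
  have hpow : ∀ n : ℕ, P ^ n ∈ A.EA := fun n => by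
    have h1 := A.aeval_mem hP (X ^ n)
    rwa [map_pow, aeval_X] at h1
  obtain ⟨h1, h2⟩ := gen_of_count A.EA hpow
  have hrts : (rts P).card ≤ (minpoly ℚ P).natDegree := by
    unfold rts
    refine (Multiset.toFinset_card_le _).trans ((card_roots' _).trans ?_)
    rw [Polynomial.natDegree_map]
  have hfr : finrank ℚ A.H1 = 2 * g := Module.finrank_fin_fun ℚ
  have hdeg0 : (P.charpoly.map (algebraMap ℚ ℂ)).natDegree = 2 * g := by
    rw [Polynomial.natDegree_map, LinearMap.charpoly_natDegree, hfr]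
  obtain ⟨h3, h4⟩ := roots_count (m := 4) (n := finrank ℚ A.EA) (S := rts P) (chi_ne P)
    (hc.trans hdeg0.ge) (fun z hz => root_min hES hz) hm (hrts.trans h1) (by norm_num)
  exact ⟨hES, h2 (h3.trans hrts), h4⟩

end count

section homs

variable {g g' : ℕ} {A : AbVar g} {B : AbVar g'}

theorem hm_zero : IsHm A B 0 := ⟨fun _ _ => 0, fun i u => by
  rw [LinearMap.zero_apply, map_zero]
  refine (Finset.sum_eq_zero fun j _ => ?_).symm
  rw [map_zero, zero_mul]⟩

theorem IsHm.add' {f f' : A.H1 →ₗ[ℚ] B.H1} (h : IsHm A B f) (h' : IsHm A B f') :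
    IsHm A B (f + f') := by
  obtain ⟨a, ha⟩ := h
  obtain ⟨a', ha'⟩ := h'
  refine ⟨fun i j => a i j + a' i j, fun i u => ?_⟩
  rw [LinearMap.add_apply, map_add, ha, ha', ← Finset.sum_add_distrib]
  refine Finset.sum_congr rfl fun j _ => ?_
  rw [map_add, add_mul]

theorem hm_sum {κ : Type} (S : Finset κ) {f : κ → A.H1 →ₗ[ℚ] B.H1}
    (h : ∀ i ∈ S, IsHm A B (f i)) : IsHm A B (∑ i ∈ S, f i) := by
  classical
  induction S using Finset.induction_on with
  | empty => rw [Finset.sum_empty]; exact hm_zero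
  | insert i S hi ih =>
    rw [Finset.sum_insert hi]
    exact IsHm.add' (h i (Finset.mem_insert_self i S)) (ih fun j hj =>
      h j (Finset.mem_insert_of_mem hj))

theorem hm_id : IsHm A A LinearMap.id := by
  have h1 : (LinearMap.id : A.H1 →ₗ[ℚ] A.H1) ∈ A.EA := (one_ES (A := A)).1
  exact isHm_end.2 h1

end homs

section family

variable {I : Type} {g : I → ℕ} {A : ∀ i, AbVar (g i)}

/-- Products of finite families. -/
theorem exists_family (hT : ∀ i, ∃ P, T4 (A i) P)
    (hh : ∀ i j, i ≠ j → ∀ f, IsHm (A i) (A j) f → f = 0) (S : Finset I) (hS : S.Nonempty) :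
    ∃ (n : ℕ) (B : AbVar n) (R : Module.End ℚ B.H1) (π : ∀ i, B.H1 →ₗ[ℚ] (A i).H1)
      (κ : ∀ i, (A i).H1 →ₗ[ℚ] B.H1), T4 B R ∧ (∀ i, IsHm B (A i) (π i)) ∧
      (∀ i, IsHm (A i) B (κ i)) ∧ (∀ i ∈ S, ∀ u, π i (κ i u) = u) ∧
      ∀ u, ∑ i ∈ S, κ i (π i u) = u := by
  classical
  induction hS using Finset.Nonempty.cons_induction with
  | singleton i =>
    obtain ⟨P, hP⟩ := hT i
    refine ⟨g i, A i, P, Function.update (fun j => (0 : (A i).H1 →ₗ[ℚ] (A j).H1)) i LinearMap.id,
      Function.update (fun j => (0 : (A j).H1 →ₗ[ℚ] (A i).H1)) i LinearMap.id, hP, ?_, ?_, ?_, ?_⟩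
    · intro j
      by_cases h : j = i
      · subst h
        rw [update_self]
        exact hm_id
      · rw [update_of_ne h]
        exact hm_zero
    · intro j
      by_cases h : j = i
      · subst h
        rw [update_self]
        exact hm_id
      · rw [update_of_ne h]
        exact hm_zero
    · intro j hj u
      rw [Finset.mem_singleton] at hj
      subst hj
      rw [update_self, update_self]
      rfl
    · intro u
      rw [Finset.sum_singleton, update_self, update_self]
      rfl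
  | cons i S hi hne ih =>
    obtain ⟨n, B, R, π, κ, hB, hπ, hκ, h1, h2⟩ := ih
    obtain ⟨P, hP⟩ := hT i
    have hij : ∀ j ∈ S, j ≠ i := fun j hj h => hi (h ▸ hj)
    obtain ⟨R', hR'⟩ := hP.times hB (fun f hf => by
      refine LinearMap.ext fun u => ?_
      rw [← h2 (f u)]
      refine Finset.sum_eq_zero fun j hj => ?_
      have h3 := hh i j (hij j hj).symm _ ((hπ j).comp hf)
      have h4 : π j (f u) = 0 := LinearMap.congr_fun h3 u
      rw [h4, map_zero]) (fun f hf => by
      refine LinearMap.ext fun u => ?_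
      rw [← h2 u, map_sum]
      refine Finset.sum_eq_zero fun j hj => ?_
      have h3 := hh j i (hij j hj) _ (hf.comp (hκ j))
      exact LinearMap.congr_fun h3 (π j u))
    refine ⟨g i + n, ID.prod (A i) B, R',
      Function.update (fun j => ((π j).comp (π2 (g i) n) :
        (ID.prod (A i) B).H1 →ₗ[ℚ] (A j).H1)) i (π1 (g i) n),
      Function.update (fun j => ((κ2 (g i) n).comp (κ j) :
        (A j).H1 →ₗ[ℚ] (ID.prod (A i) B).H1)) i (κ1 (g i) n), hR', ?_, ?_, ?_, ?_⟩
    · intro j
      by_cases h : j = i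
      · subst h
        rw [update_self]
        exact hm_π1
      · rw [update_of_ne h]
        exact (hπ j).comp hm_π2
    · intro j
      by_cases h : j = i
      · subst h
        rw [update_self]
        exact hm_κ1
      · rw [update_of_ne h]
        exact hm_κ2.comp (hκ j)
    · intro j hj u
      by_cases h : j = i
      · subst h
        rw [update_self, update_self]
        exact π1_κ1 u
      · rw [update_of_ne h, update_of_ne h]
        have hj' : j ∈ S := (Finset.mem_cons.1 hj).resolve_left h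
        change π j (π2 (g i) n (κ2 (g i) n (κ j u))) = u
        rw [π2_κ2, h1 j hj']
    · intro u
      rw [Finset.sum_cons, update_self, update_self]
      have h3 : ∀ j ∈ S, (Function.update (fun j => ((κ2 (g i) n).comp (κ j) :
          (A j).H1 →ₗ[ℚ] (ID.prod (A i) B).H1)) i (κ1 (g i) n) j)
          (Function.update (fun j => ((π j).comp (π2 (g i) n) :
          (ID.prod (A i) B).H1 →ₗ[ℚ] (A j).H1)) i (π1 (g i) n) j u) =
          κ2 (g i) n (κ j (π j (π2 (g i) n u))) := by
        intro j hj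
        rw [update_of_ne (hij j hj), update_of_ne (hij j hj)]
        rfl
      rw [Finset.sum_congr rfl h3, ← map_sum, h2]
      exact κ_π u

/-- The trivial variety. -/
theorem good_of_trivial {n : ℕ} {C : AbVar n} (h : ∀ u : C.H1, u = 0) : Good C := by
  have h0 : ∀ X : Module.End ℚ C.H1, X = 0 := fun X => LinearMap.ext fun u => by
    rw [h u, map_zero, map_zero]
  refine Dbl.good (P := 0) ⟨Submodule.zero_mem _, fun Q _ _ => ⟨0, by rw [h0 Q, map_zero]⟩,
    fun z hz => ?_, 0, Submodule.zero_mem _, 0, Submodule.zero_mem _, fun Q _ => by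
      rw [zero_mul, mul_zero], fun Q _ => by rw [zero_mul, mul_zero], by
      rw [zero_mul, add_zero]⟩
  exfalso
  haveI : Subsingleton C.H1 := ⟨fun u v => by rw [h u, h v]⟩
  have h1 : ((0 : Module.End ℚ C.H1).charpoly).natDegree = 0 := by
    rw [LinearMap.charpoly_natDegree]
    exact finrank_zero_of_subsingleton
  have h2 : (0 : Module.End ℚ C.H1).charpoly = 1 :=
    ((LinearMap.charpoly_monic _).natDegree_eq_zero).1 h1
  rw [h2, Polynomial.map_one] at hz
  exact one_ne_zero ((eval_one (x := z)).symm.trans hz)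

/-- **Subvarieties of squares.** -/
theorem good_squares [Fintype I] (hT : ∀ i, ∃ P, T4 (A i) P)
    (hh : ∀ i j, i ≠ j → ∀ f, IsHm (A i) (A j) f → f = 0) {n : ℕ} {C : AbVar n}
    {p q : ∀ i, C.H1 →ₗ[ℚ] (A i).H1} (hp : ∀ i, IsHm C (A i) (p i))
    (hq : ∀ i, IsHm C (A i) (q i)) (hinj : ∀ u, (∀ i, p i u = 0 ∧ q i u = 0) → u = 0) :
    Good C := by
  classical
  rcases isEmpty_or_nonempty I with hI | hI
  · exact good_of_trivial fun u => hinj u fun i => isEmptyElim i
  · obtain ⟨m, B, R, π, κ, hB, hπ, hκ, h1, h2⟩ :=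
      exists_family hT hh Finset.univ Finset.univ_nonempty
    obtain ⟨R', hR'⟩ := hB.square
    let F₁ : C.H1 →ₗ[ℚ] B.H1 := ∑ i, (κ i).comp (p i)
    let F₂ : C.H1 →ₗ[ℚ] B.H1 := ∑ i, (κ i).comp (q i)
    have hF₁ : IsHm C B F₁ := hm_sum _ fun i _ => (hκ i).comp (hp i)
    have hF₂ : IsHm C B F₂ := hm_sum _ fun i _ => (hκ i).comp (hq i)
    have hπκ : ∀ (r : ∀ i, C.H1 →ₗ[ℚ] (A i).H1) (u : C.H1) (j : I),
        π j (∑ i, κ i (r i u)) = r j u := by
      intro r u j
      rw [map_sum, Finset.sum_eq_single j, h1 j (Finset.mem_univ j)]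
      · intro i _ hi
        have h3 := hh i j hi _ ((hπ j).comp (hκ i))
        exact LinearMap.congr_fun h3 (r i u)
      · intro h; exact absurd (Finset.mem_univ _) h
    refine hR'.good.of_sub (f := (κ1 m m).comp F₁ + (κ2 m m).comp F₂)
      (IsHm.add' (hm_κ1.comp hF₁) (hm_κ2.comp hF₂)) ?_
    rw [injective_iff_map_eq_zero]
    intro u hu
    have e0 : κ1 m m (F₁ u) + κ2 m m (F₂ u) = 0 := hu
    have e1 : F₁ u = 0 := by
      have h3 := congrArg (π1 m m) e0
      rwa [map_add, π1_κ1, π1_κ2, add_zero, map_zero] at h3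
    have e2 : F₂ u = 0 := by
      have h3 := congrArg (π2 m m) e0
      rwa [map_add, π2_κ1, π2_κ2, zero_add, map_zero] at h3
    refine hinj u fun i => ⟨?_, ?_⟩
    · rw [← hπκ p u i]
      have h3 : ∑ i, κ i (p i u) = F₁ u := by
        rw [LinearMap.sum_apply]; rfl
      rw [h3, e1, map_zero]
    · rw [← hπκ q u i]
      have h3 : ∑ i, κ i (q i u) = F₂ u := by
        rw [LinearMap.sum_apply]; rfl
      rw [h3, e2, map_zero]

end family

end

end Pool.Agent.V5helper88.KK
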